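import Mathlib
import Pool.Agent.H13.Sp.SameRing

set_option autoImplicit false
open Finset

/-! # The same ring and the same outer connections give the same increments, any number of marks

Like `H13/Sp/SameRing.lean`, but with any number of marks. `TypN` : the outer connections of the marks of
the ring are the same for both sets of labels. -/

namespace Pool.Agent.H52.W

open Pool.Agent.H75.Perc hiding ph cc EE
open Pool.Agent.H75.TwoArm Pool.Agent.Q1 Pool.Agent.H33.Q1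
open Pool.Agent.H69.Q1
open Pool.Agent.H74.R45 hiding plab_nx
open Pool.Agent.H13.R45 (gp)
open Pool.Agent.Q1.Env (TConn TAdj ArcN SamePat)
open Pool.Agent.Q1.M6c (PlaneEnv entrance_unique)
open Pool.Agent.H33.Sp
open Pool.Agent.H13.Sp
open Pool.Agent.H13.Sp.SR

variable {B : BF} {E W W' A : Finset (ℤ × ℤ)} {cl cr : ℤ → Bool} {X Y X1 : Bool × ℤ} {x y : ℤ}
  {o : Bool}

/-- a mark of the ring, weak form -/
def MkP (B : BF) (cl cr : ℤ → Bool) (X : Bool × ℤ) : Prop := B.IsP X ∧ WFc cl cr X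

lemma mkP_of (m : MarkR B cl cr X) : MkP B cl cr X := ⟨isP_of m, m.wf⟩

/-- wired positions belong to a mark -/
lemma wired_posN (H : RingC B W cl cr) (m1 : MkP B cl cr X1) {p : ℤ} (h0 : 0 ≤ p)
    (h1 : p < 2 * B.N) (hp : col B cl cr p = true) :
    ∃ X, MkP B cl cr X ∧ Lk B cl cr true (rv B true p) (rv B true (B.pos X)) := by
  have c1 := col_pos m1.1 m1.2
  have r1 := BF.pos_range m1.1
  have hl := col_last H
  obtain ⟨q, k0, k1, k2, k3, k4⟩ := walk_fwd (M := 2 * B.N) (C := fun p => col B cl cr p = true)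
    (G := fun p q => Lk B cl cr true (rv B true p) (rv B true q)) (fun p A _ => Cn.refl _ _ _)
    (fun p q r h1 h2 A hA => (h1 A hA).trans (h2 A hA))
    (fun p h0 h1 h2 h3 A hA => rv_step hA h0 h1 h2 h3)
    (fun h => by
      have h' : col B cl cr 0 = true := by rw [hl.2, ← hl.1]; exact h
      exact ⟨h', fun A hA => rv_wrap hA h'⟩)
    ⟨B.pos X1 + 1, by omega, by omega, by simp [c1.2]⟩ h0 h1 hp
  obtain ⟨X, a1, a2, a3⟩ := mark_of H k0 k1 k2 (by simpa using k3)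
  refine ⟨X, ⟨a1, a2⟩, ?_⟩
  rw [a3]; exact k4

/-- free positions belong to a mark -/
lemma free_posN (H : RingC B W cl cr) (m1 : MkP B cl cr X1) {p : ℤ} (h0 : 0 ≤ p)
    (h1 : p < 2 * B.N) (hp : col B cl cr p = false) :
    ∃ X, MkP B cl cr X ∧ Lk B cl cr false (rv B false p) (rv B false (B.pos X + 1)) := by
  have c1 := col_pos m1.1 m1.2
  have r1 := BF.pos_range m1.1
  have hl := col_last H
  obtain ⟨q, k0, k1, k2, k3, k4⟩ := walk_bwd (M := 2 * B.N) (C := fun p => col B cl cr p = false)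
    (G := fun p q => Lk B cl cr false (rv B false p) (rv B false q)) (fun p A _ => Cn.refl _ _ _)
    (fun p q r h1 h2 A hA => (h1 A hA).trans (h2 A hA)) (fun p q h A hA => (h A hA).symm)
    (fun p h0 h1 h2 h3 A hA => rv_step hA h0 h1 h2 h3)
    (fun h => ⟨by rw [hl.1, ← hl.2]; exact h, fun A hA => rv_wrap hA h⟩)
    ⟨B.pos X1, by omega, by omega, by simp [c1.1]⟩ h0 h1 hp
  obtain ⟨X, a1, a2, a3⟩ := mark_of H k0 k1 (by simpa using k2) k3
  refine ⟨X, ⟨a1, a2⟩, ?_⟩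
  rw [a3]; exact k4

/-- a boundary vertex which touches an open label of the box belongs to a mark -/
lemma cls_vN (H : RingC B W cl cr) (m1 : MkP B cl cr X1) {u : ℤ × ℤ} (h : TV B W u)
    (hb : (tv u).1 = B.x0 ∨ (tv u).1 = B.x1 ∨ (tv u).2 = B.y0 ∨ (tv u).2 = B.y1) :
    ∃ X, MkP B cl cr X ∧ ∀ A, RingC B A cl cr → Co A u (vR B X) := by
  obtain ⟨x, y, h1, h2, h3⟩ := h
  obtain ⟨e1, e2⟩ := gp_tv u
  obtain ⟨r, r0, r1, r2, r3⟩ := bd_pos (o := true) H (a := (tv u).1) (b := (tv u).2)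
    (by rw [e2]; rfl) h1 h3 hb (by simpa using h2)
  obtain ⟨X, k1, k2⟩ := wired_posN H m1 r0 r1 r2
  refine ⟨X, k1, fun A hA => ?_⟩
  have := cn_true.1 ((r3 A hA).trans (k2 A hA))
  rw [vR_eq k1.1] at this
  rw [← e1]; exact this

/-- a boundary face which touches a closed label of the box belongs to a mark -/
lemma cls_fN (H : RingC B W cl cr) (m1 : MkP B cl cr X1) {f : ℤ × ℤ} (h : B.TF E W f)
    (hb : (tf f).1 = B.x0 ∨ (tf f).1 = B.x1 ∨ (tf f).2 = B.y0 ∨ (tf f).2 = B.y1) :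
    ∃ X, MkP B cl cr X ∧ ∀ A, RingC B A cl cr → DCo A f (fR B X) := by
  obtain ⟨x, y, h1, h2, h3⟩ := h
  rw [mem_union, not_or] at h2
  obtain ⟨e1, e2⟩ := gp_tf f
  obtain ⟨r, r0, r1, r2, r3⟩ := bd_pos (o := false) H (a := (tf f).1) (b := (tf f).2)
    (by rw [e2]; rfl) h1 h3 hb (by simpa using h2.2)
  obtain ⟨X, k1, k2⟩ := free_posN H m1 r0 r1 r2
  refine ⟨X, k1, fun A hA => ?_⟩
  have := cn_false.1 ((r3 A hA).trans (k2 A hA))
  rw [fR_eq k1.1] at this
  rw [← e1]; exact this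

/-- **Transfer of the outer connections of the marks** from `W` to `W'`. -/
def TrN (B : BF) (E W W' : Finset (ℤ × ℤ)) (cl cr : ℤ → Bool) : Prop :=
  ∀ X Y, MkP B cl cr X → MkP B cl cr Y →
    (Co (W \ Si B) (vR B X) (vR B Y) → Co W' (vR B X) (vR B Y)) ∧
    (DCo (Si B ∪ W) (fR B X) (fR B Y) → DCo (E ∪ W') (fR B X) (fR B Y))

/-- transfer of the outer connections -/
theorem out_trN (H : RingC B W cl cr) (H' : RingC B W' cl cr) (hE : E ⊆ Si B)
    (m1 : MkP B cl cr X1) (hT : TrN B E W W' cl cr) :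
    (∀ u v, TV B W u → TV B W v → Co (W \ B.GB) u v → Co W' u v) ∧
    ∀ f g, B.TF E W f → B.TF E W g → DCo (B.GB ∪ W) f g → DCo (E ∪ W') f g := by
  constructor
  · intro u v h1 h2 h3
    by_cases hn : u = v
    · rw [hn]; exact Co.refl _ _
    obtain ⟨X, k1, k2⟩ := cls_vN H m1 h1 (far_bdv h1 hn h3)
    obtain ⟨Y, l1, l2⟩ := cls_vN H m1 h2 (far_bdv h2 (Ne.symm hn) h3.symm)
    have h4 : Co (W \ Si B) (vR B X) (vR B Y) :=
      ((k2 _ H.diff).symm.trans (h3.mono (sdiff_subset_sdiff le_rfl Si_sub))).trans (l2 _ H.diff)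
    exact ((k2 _ H').trans ((hT X Y k1 l1).1 h4)).trans (l2 _ H').symm
  · intro f g h1 h2 h3
    by_cases hn : f = g
    · rw [hn]; exact DCo.refl _ _
    obtain ⟨X, k1, k2⟩ := cls_fN H m1 h1 (BF.far_bd h1 hn h3)
    obtain ⟨Y, l1, l2⟩ := cls_fN H m1 h2 (BF.far_bd h2 (Ne.symm hn) h3.symm)
    have h4 : DCo (Si B ∪ W) (fR B X) (fR B Y) :=
      ((k2 _ H.add).symm.trans (h3.anti (union_subset_union_left Si_sub))).trans (l2 _ H.add)
    have h5 := (hT X Y k1 l1).2 h4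
    have e1 : DCo (E ∪ W') f (fR B X) := (k2 _ H'.add).anti (union_subset_union_left hE)
    have e2 : DCo (E ∪ W') g (fR B Y) := (l2 _ H'.add).anti (union_subset_union_left hE)
    exact (e1.trans h5).trans e2.symm

/-- **The same ring, the same outer connections and roots at the same mark give the same increments**, any
number of marks. -/
theorem same_ringN (hconn : TConn E)
    (hE : ∀ x y, lt (x, y) ∈ E → B.x0 < x ∧ x + 1 < B.x1 ∧ B.y0 < y ∧ y + 1 < B.y1)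
    (H : RingC B W cl cr) (H' : RingC B W' cl cr) (hn : ∀ e ∈ B.GB, (e ∈ W ↔ e ∈ W'))
    (hT : TrN B E W W' cl cr) (hT' : TrN B E W' W cl cr)
    {U V : Env} (pU : PlaneEnv U W) (pV : PlaneEnv V W') (eU : U.E = E) (eV : V.E = E)
    {Xs : Bool × ℤ} (ms : MarkR B cl cr Xs)
    (u1 : Co W (vx U.c0) (vR B Xs)) (u2 : DCo (E ∪ W) (fi U.c0) (fR B Xs))
    (v1 : Co W' (vx V.c0) (vR B Xs)) (v2 : DCo (E ∪ W') (fi V.c0) (fR B Xs)) :
    ∃ κ : ℤ, ∀ c, (lab c ∈ E ∨ plab c ∈ E) → V.inc c = ph κ * U.inc c := by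
  have hodd : ∀ e ∈ E, (e.1 + e.2) % 2 = 1 := by rw [← eU]; exact U.odd
  have hES : E ⊆ Si B := by
    intro e he
    obtain ⟨x, y, rfl⟩ := exists_lt (hodd e he)
    exact mem_Si.2 (hE x y he)
  obtain ⟨F1, D1⟩ := out_trN H H' hES (mkP_of ms) hT
  obtain ⟨F2, D2⟩ := out_trN H' H hES (mkP_of ms) hT'
  have hc : ∀ c, (lab c ∈ E ∨ plab c ∈ E) → B.InI (tv (vx c)) ∧ B.InI (tf (fi c)) := by
    intro c hc
    obtain ⟨⟨x, y, e, h1, h2⟩, ⟨x', y', e', h1', h2'⟩⟩ := lab_touch c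
    unfold Tch at h1 h2 h1' h2'
    unfold BF.InI
    rcases hc with hc | hc
    · rw [e] at hc
      have := hE x y hc
      omega
    · rw [e'] at hc
      have := hE x' y' hc
      omega
  have ha := vR_TV H ms
  have ha' := vR_TV H' ms
  have hi := fR_TF hES H ms
  have hi' := fR_TF hES H' ms
  have n1 : ∀ e ∈ B.GB, e ∈ W → e ∈ W' := fun e he => (hn e he).1
  have n2 : ∀ e ∈ B.GB, e ∈ W' → e ∈ W := fun e he => (hn e he).2
  refine same_conn hconn ⟨?_, ?_⟩ ⟨?_, ?_⟩ pU pV eU eV ?_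
  · intro c c' h1 h2 h3
    exact co_trT n1 F1 (Or.inr (hc c h1).1) (Or.inr (hc c' h2).1) h3
  · intro c c' h1 h2 h3
    exact BF.dco_tr n2 D1 (Or.inr (hc c h1).2) (Or.inr (hc c' h2).2) h3
  · intro c c' h1 h2 h3
    exact co_trT n2 F2 (Or.inr (hc c h1).1) (Or.inr (hc c' h2).1) h3
  · intro c c' h1 h2 h3
    exact BF.dco_tr n1 D2 (Or.inr (hc c h1).2) (Or.inr (hc c' h2).2) h3
  · intro c hcE
    constructor
    · rintro ⟨h1, h2⟩
      exact ⟨v1.trans (co_trT n1 F1 (Or.inl ha) (Or.inr (hc c (Or.inl hcE)).1) (u1.symm.trans h1)),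
        v2.trans (BF.dco_tr n2 D1 (Or.inl hi) (Or.inr (hc c (Or.inl hcE)).2) (u2.symm.trans h2))⟩
    · rintro ⟨h1, h2⟩
      exact ⟨u1.trans (co_trT n2 F2 (Or.inl ha') (Or.inr (hc c (Or.inl hcE)).1) (v1.symm.trans h1)),
        u2.trans (BF.dco_tr n1 D2 (Or.inl hi') (Or.inr (hc c (Or.inl hcE)).2) (v2.symm.trans h2))⟩

/-- the outer connections are the same in both sets of labels -/
lemma trN_of (hE : E ⊆ Si B) (h : ∀ X Y, MkP B cl cr X → MkP B cl cr Y →
    (Co (W \ Si B) (vR B X) (vR B Y) → Co (W' \ Si B) (vR B X) (vR B Y)) ∧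
    (DCo (Si B ∪ W) (fR B X) (fR B Y) → DCo (Si B ∪ W') (fR B X) (fR B Y))) :
    TrN B E W W' cl cr := fun X Y hX hY =>
  ⟨fun h1 => ((h X Y hX hY).1 h1).mono sdiff_subset,
    fun h1 => ((h X Y hX hY).2 h1).anti (union_subset_union_left hE)⟩

end Pool.Agent.H52.W
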