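import Mathlib
import Pool.Agent.H13.Sp.SameRing
import Pool.Agent.H33.Sp.FrameR
import Pool.Agent.H33.Sp.SameNat

set_option autoImplicit false
open Finset

/-! # The strip between the ring of the box and the rectangle

`StrN B R W cl cr τ` : the colours of the strip between the box `B` and the inner box `SI R` of the rectangle
`R`. `strip_lk` : two boundary points of the box which are joined by tiles of one colour of the strip are joined
on the ring of the box. `co_trS`, `dco_trS` : connections outside of `SI R` between points of the boundary of the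
box (or outside of it) do not depend on the strip. -/

namespace Pool.Agent.H52.W

open Pool.Agent.H75.Perc hiding ph cc EE
open Pool.Agent.H75.TwoArm Pool.Agent.Q1 Pool.Agent.H33.Q1
open Pool.Agent.H69.Q1
open Pool.Agent.H74.R45 hiding plab_nx
open Pool.Agent.H13.R45 (gp)
open Pool.Agent.H33.Sp
open Pool.Agent.H33.Sp.BF (SI mem_SI Str)
open Pool.Agent.H13.Sp
open Pool.Agent.H13.Sp.SR

variable {B R R' : BF} {W W' A : Finset (ℤ × ℤ)} {cl cr : ℤ → Bool} {τ : ℤ} {x y x' y' z z' : ℤ}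
  {o s s' : Bool} {p q : ℤ × ℤ}

/-- column of the side `s` of the ring -/
def sx (B : BF) (s : Bool) : ℤ := if s then B.x1 - 1 else B.x0

/-- grid point of colour `o` of the ring tile on the side `s` in the row `z` -/
def rp (B : BF) (o s : Bool) (z : ℤ) : ℤ × ℤ := (sx B s + (sx B s + z + pt o) % 2, z)

/-- colour of the side `s` in the row `z` -/
def cs (cl cr : ℤ → Bool) (s : Bool) (z : ℤ) : Bool := if s then cr z else cl z

@[simp] lemma cs_false : cs cl cr false z = cl z := rfl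
@[simp] lemma cs_true : cs cl cr true z = cr z := rfl

/-- **The strip between the box `B` and the rectangle `R`.** -/
structure StrN (B R : BF) (W : Finset (ℤ × ℤ)) (cl cr : ℤ → Bool) (τ : ℤ) : Prop where
  st : Str B R W cl cr τ
  t : -2 ≤ τ ∧ τ ≤ 2
  hB : ∀ x y, B.InB x y → R.x0 ≤ x → x < R.x1 → y ≤ R.y0 → (lt (x, y) ∈ W ↔ cl B.y0 = true)
  hT : ∀ x y, B.InB x y → R.x0 ≤ x → x < R.x1 → R.y1 ≤ y + 1 → (lt (x, y) ∈ W ↔ cl (B.y1 - 1) = true)
  y0 : R.y0 ≤ B.y0 + 2 ∧ B.y0 ≤ R.y0 - τ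
  y1 : B.y1 ≤ R.y1 + 2 ∧ R.y1 - τ ≤ B.y1
  wd : R.x0 + 3 ≤ R.x1
  ht : R.y0 + 3 ≤ R.y1
  cb : cr B.y0 = cl B.y0
  ct : cr (B.y1 - 1) = cl (B.y1 - 1)
  cst : ∀ s z1 z z2, B.y0 ≤ z1 → z1 ≤ z → z ≤ z2 → z2 ≤ z1 + 6 → z2 < B.y1 →
    cs cl cr s z1 = cs cl cr s z2 → cs cl cr s z = cs cl cr s z1

lemma Lk.symm' {p q : ℤ × ℤ} (h : Lk B cl cr o p q) : Lk B cl cr o q p := fun A hA => (h A hA).symm

lemma Lk.trans' {p q r : ℤ × ℤ} (h : Lk B cl cr o p q) (h' : Lk B cl cr o q r) : Lk B cl cr o p r :=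
  fun A hA => (h A hA).trans (h' A hA)

lemma RingC.sd (H : RingC B A cl cr) (h0 : B.y0 ≤ z) (h1 : z < B.y1) :
    lt (sx B s, z) ∈ A ↔ cs cl cr s z = true := by
  unfold sx cs
  cases s
  · simp only [Bool.false_eq_true, if_false]; exact H.lf z h0 h1
  · simp only [if_true]; exact H.rt z h0 h1

/-- a point of the tile of the ring on the side `s` -/
lemma tile_lk (h0 : B.y0 ≤ z) (h1 : z < B.y1) (hc : cs cl cr s z = o)
    (hp : (sx B s ≤ p.1 ∧ p.1 ≤ sx B s + 1 ∧ z ≤ p.2 ∧ p.2 ≤ z + 1) ∧ (p.1 + p.2) % 2 = pt o) :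
    Lk B cl cr o p (rp B o s z) := by
  intro A hA
  have hpt := pt_cases o
  unfold rp
  refine crect (sx B s) (sx B s + 1) z (z + 1) (by omega) (by omega)
    (fun x y d1 d2 d3 d4 => ?_) hp (by omega)
  obtain rfl : x = sx B s := by omega
  obtain rfl : y = z := by omega
  exact mem_iff_col (RingC.sd hA h0 h1) hc

lemma col_lk (h0 : B.y0 ≤ z) (hz : z ≤ z') (h1 : z' < B.y1)
    (hc : ∀ k, z ≤ k → k ≤ z' → cs cl cr s k = o) : Lk B cl cr o (rp B o s z) (rp B o s z') := by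
  intro A hA
  have hpt := pt_cases o
  unfold rp
  refine crect (sx B s) (sx B s + 1) z (z' + 1) (by omega) (by omega)
    (fun x y d1 d2 d3 d4 => ?_) (by omega) (by omega)
  obtain rfl : x = sx B s := by omega
  exact mem_iff_col (RingC.sd hA (by omega) (by omega)) (hc y d3 (by omega))

lemma bot_pt (hc : cl B.y0 = o)
    (hp : (B.x0 ≤ p.1 ∧ p.1 ≤ B.x1 ∧ B.y0 ≤ p.2 ∧ p.2 ≤ B.y0 + 1) ∧ (p.1 + p.2) % 2 = pt o)
    (hq : (B.x0 ≤ q.1 ∧ q.1 ≤ B.x1 ∧ B.y0 ≤ q.2 ∧ q.2 ≤ B.y0 + 1) ∧ (q.1 + q.2) % 2 = pt o) :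
    Lk B cl cr o p q := by
  intro A hA
  have hx := B.hx
  refine crect B.x0 B.x1 B.y0 (B.y0 + 1) (by omega) (by omega) (fun x y d1 d2 d3 d4 => ?_) hp hq
  obtain rfl : y = B.y0 := by omega
  exact mem_iff_col (hA.bt x d1 d2) hc

lemma top_pt (hc : cl (B.y1 - 1) = o)
    (hp : (B.x0 ≤ p.1 ∧ p.1 ≤ B.x1 ∧ B.y1 - 1 ≤ p.2 ∧ p.2 ≤ B.y1) ∧ (p.1 + p.2) % 2 = pt o)
    (hq : (B.x0 ≤ q.1 ∧ q.1 ≤ B.x1 ∧ B.y1 - 1 ≤ q.2 ∧ q.2 ≤ B.y1) ∧ (q.1 + q.2) % 2 = pt o) :
    Lk B cl cr o p q := by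
  intro A hA
  have hx := B.hx
  refine crect B.x0 B.x1 (B.y1 - 1) B.y1 (by omega) (by omega) (fun x y d1 d2 d3 d4 => ?_) hp hq
  obtain rfl : y = B.y1 - 1 := by omega
  exact mem_iff_col (hA.tp x d1 d2) hc

lemma rp_rng (s : Bool) (z : ℤ) : (B.x0 ≤ (rp B o s z).1 ∧ (rp B o s z).1 ≤ B.x1 ∧ z ≤ (rp B o s z).2 ∧
    (rp B o s z).2 ≤ z + 1) ∧ ((rp B o s z).1 + (rp B o s z).2) % 2 = pt o := by
  have hpt := pt_cases o
  have hx := B.hx
  unfold rp sx
  cases s
  · simp only [Bool.false_eq_true, if_false]; omega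
  · simp only [if_true]; omega

/-- a source of the tile `(x, y)` : a row of the same colour -/
def Src (B R : BF) (cl cr : ℤ → Bool) (o : Bool) (x y : ℤ) (s : Bool) (z : ℤ) : Prop :=
  B.y0 ≤ z ∧ z < B.y1 ∧ cs cl cr s z = o ∧
  ((s = false ∧ x ≤ R.x0 ∧ y ≤ z + 2 ∧ z ≤ y + 2) ∨ (s = true ∧ R.x1 ≤ x + 1 ∧ y ≤ z + 2 ∧ z ≤ y + 2) ∨
    (s = false ∧ R.y1 ≤ y + 1 ∧ z = B.y1 - 1) ∨ (s = false ∧ y ≤ R.y0 ∧ z = B.y0))

/-- a tile of the strip, of colour `o` -/
def STile (B R : BF) (W : Finset (ℤ × ℤ)) (o : Bool) (x y : ℤ) : Prop :=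
  B.InB x y ∧ lt (x, y) ∉ SI R ∧ (lt (x, y) ∈ W ↔ o = true)

lemma bool_of {P : Prop} {a b : Bool} (h : P ↔ a = true) (h' : P ↔ b = true) : a = b :=
  bool_eq_of_iff h h'

lemma src_of (S : StrN B R W cl cr τ) (h : STile B R W o x y) : ∃ s z, Src B R cl cr o x y s z := by
  obtain ⟨h1, h2, h3⟩ := h
  rw [mem_SI] at h2
  have h1' := h1
  unfold BF.InB at h1'
  obtain ⟨t1, t2⟩ := S.t
  obtain ⟨a1, a2⟩ := S.y0
  obtain ⟨b1, b2⟩ := S.y1
  have hx := B.hx
  have hy := B.hy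
  unfold Src
  by_cases c1 : x < R.x0
  · exact ⟨false, y, by omega, by omega, bool_of (S.st.hL x y h1 c1) h3, by
      left; exact ⟨rfl, by omega, by omega, by omega⟩⟩
  by_cases c2 : R.x1 ≤ x
  · exact ⟨true, y, by omega, by omega, bool_of (S.st.hR x y h1 c2) h3, by
      right; left; exact ⟨rfl, by omega, by omega, by omega⟩⟩
  by_cases c3 : y ≤ R.y0
  · exact ⟨false, B.y0, by omega, by omega, bool_of (S.hB x y h1 (by omega) (by omega) c3) h3, by
      right; right; right; exact ⟨rfl, c3, rfl⟩⟩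
  by_cases c4 : R.y1 ≤ y + 1
  · exact ⟨false, B.y1 - 1, by omega, by omega, bool_of (S.hT x y h1 (by omega) (by omega) c4) h3, by
      right; right; left; exact ⟨rfl, c4, rfl⟩⟩
  rcases (by omega : x = R.x0 ∨ x = R.x1 - 1) with rfl | rfl
  · exact ⟨false, y - τ, by omega, by omega, bool_of (S.st.rl y (by omega) (by omega)) h3, by
      left; exact ⟨rfl, by omega, by omega, by omega⟩⟩
  · exact ⟨true, y - τ, by omega, by omega, bool_of (S.st.rr y (by omega) (by omega)) h3, by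
      right; left; exact ⟨rfl, by omega, by omega, by omega⟩⟩

lemma row_lk (S : StrN B R W cl cr τ) (h0 : B.y0 ≤ z) (h1 : z < B.y1) (h0' : B.y0 ≤ z')
    (h1' : z' < B.y1) (h2 : z ≤ z' + 6) (h3 : z' ≤ z + 6) (c : cs cl cr s z = o)
    (c' : cs cl cr s z' = o) : Lk B cl cr o (rp B o s z) (rp B o s z') := by
  rcases le_total z z' with h | h
  · exact col_lk h0 h h1' fun k k1 k2 => by
      rw [S.cst s z k z' h0 k1 k2 h3 h1' (c.trans c'.symm), c]
  · exact Lk.symm' (col_lk h0' h h1 fun k k1 k2 => by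
      rw [S.cst s z' k z h0' k1 k2 h2 h1 (c'.trans c.symm), c'])

/-- **Sources of adjacent tiles are joined.** -/
lemma src_lk (S : StrN B R W cl cr τ) (h : Src B R cl cr o x y s z) (h' : Src B R cl cr o x' y' s' z')
    (hx : x ≤ x' + 1 ∧ x' ≤ x + 1) (hy : y ≤ y' + 1 ∧ y' ≤ y + 1) :
    Lk B cl cr o (rp B o s z) (rp B o s' z') := by
  obtain ⟨a1, a2⟩ := S.y0
  obtain ⟨b1, b2⟩ := S.y1
  have wd := S.wd
  have ht := S.ht
  have Hy := B.hy
  have h7 := S.st.y0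
  have h8 := S.st.y1
  have hcb := S.cb
  have hct := S.ct
  obtain ⟨u1, u2, u3, u⟩ := h
  obtain ⟨v1, v2, v3, v⟩ := h'
  have kT : ∀ {k : ℤ}, B.y0 ≤ k → k < B.y1 → B.y1 ≤ k + 6 → cs cl cr true k = o →
      cl (B.y1 - 1) = o → Lk B cl cr o (rp B o true k) (rp B o false (B.y1 - 1)) := by
    intro k k1 k2 k3 k4 k5
    refine Lk.trans' (row_lk S (z' := B.y1 - 1) k1 k2 (by omega) (by omega) (by omega) (by omega) k4
      (by rw [cs_true, hct, k5])) ?_
    have r1 := rp_rng (B := B) (o := o) true (B.y1 - 1)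
    have r2 := rp_rng (B := B) (o := o) false (B.y1 - 1)
    exact top_pt k5 (by omega) (by omega)
  have kB : ∀ {k : ℤ}, B.y0 ≤ k → k < B.y1 → k ≤ B.y0 + 6 → cs cl cr true k = o →
      cl B.y0 = o → Lk B cl cr o (rp B o true k) (rp B o false B.y0) := by
    intro k k1 k2 k3 k4 k5
    refine Lk.trans' (row_lk S (z' := B.y0) k1 k2 (by omega) (by omega) (by omega) (by omega) k4
      (by rw [cs_true, hcb, k5])) ?_
    have r1 := rp_rng (B := B) (o := o) true B.y0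
    have r2 := rp_rng (B := B) (o := o) false B.y0
    exact bot_pt k5 (by omega) (by omega)
  rcases u with ⟨rfl, u4, u5, u6⟩ | ⟨rfl, u4, u5, u6⟩ | ⟨rfl, u4, rfl⟩ | ⟨rfl, u4, rfl⟩ <;>
    rcases v with ⟨rfl, v4, v5, v6⟩ | ⟨rfl, v4, v5, v6⟩ | ⟨rfl, v4, rfl⟩ | ⟨rfl, v4, rfl⟩
  · exact row_lk S u1 u2 v1 v2 (by omega) (by omega) u3 v3
  · omega
  · exact row_lk S u1 u2 v1 v2 (by omega) (by omega) u3 v3
  · exact row_lk S u1 u2 v1 v2 (by omega) (by omega) u3 v3
  · omega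
  · exact row_lk S u1 u2 v1 v2 (by omega) (by omega) u3 v3
  · exact kT u1 u2 (by omega) u3 (by simpa using v3)
  · exact kB u1 u2 (by omega) u3 (by simpa using v3)
  · exact row_lk S u1 u2 v1 v2 (by omega) (by omega) u3 v3
  · exact Lk.symm' (kT v1 v2 (by omega) v3 (by simpa using u3))
  · exact row_lk S u1 u2 v1 v2 (by omega) (by omega) u3 v3
  · omega
  · exact row_lk S u1 u2 v1 v2 (by omega) (by omega) u3 v3
  · exact Lk.symm' (kB v1 v2 (by omega) v3 (by simpa using u3))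
  · omega
  · exact row_lk S u1 u2 v1 v2 (by omega) (by omega) u3 v3

/-- a boundary point of the box which touches a tile of the strip -/
lemma bd_src (S : StrN B R W cl cr τ) (HW : RingC B W cl cr) (h : STile B R W o x y)
    (ht : Tch x y p) (hp : (p.1 + p.2) % 2 = pt o) (hI : ¬ B.InI p) (hs : Src B R cl cr o x y s z) :
    Lk B cl cr o p (rp B o s z) := by
  obtain ⟨h1, h2, h3⟩ := h
  unfold BF.InB at h1
  unfold BF.InI at hI
  unfold Tch at ht
  have hx := B.hx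
  have hy := B.hy
  have a1 := S.st.x0
  have a2 := S.st.x1
  have a3 := S.st.y0
  have a4 := S.st.y1
  rcases (by omega : x = B.x0 ∨ x = B.x1 - 1 ∨ y = B.y0 ∨ y = B.y1 - 1) with rfl | rfl | rfl | rfl
  · have c := bool_of (HW.lf y (by omega) (by omega)) h3
    refine Lk.trans' (tile_lk (s := false) (z := y) (by omega) (by omega) c
      ⟨by unfold sx; simp only [Bool.false_eq_true, if_false]; omega, hp⟩) ?_
    exact src_lk S (x := B.x0) (y := y) ⟨by omega, by omega, c, Or.inl ⟨rfl, by omega, by omega, by omega⟩⟩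
      hs (by omega) (by omega)
  · have c := bool_of (HW.rt y (by omega) (by omega)) h3
    refine Lk.trans' (tile_lk (s := true) (z := y) (by omega) (by omega) c
      ⟨by unfold sx; simp only [if_true]; omega, hp⟩) ?_
    exact src_lk S (x := B.x1 - 1) (y := y)
      ⟨by omega, by omega, c, Or.inr (Or.inl ⟨rfl, by omega, by omega, by omega⟩)⟩
      hs (by omega) (by omega)
  · have c := bool_of (HW.bt x (by omega) (by omega)) h3
    have r1 := rp_rng (B := B) (o := o) false B.y0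
    refine Lk.trans' (bot_pt (q := rp B o false B.y0) c ⟨by omega, hp⟩ (by omega)) ?_
    exact src_lk S (x := x) (y := B.y0)
      ⟨by omega, by omega, c, Or.inr (Or.inr (Or.inr ⟨rfl, by omega, rfl⟩))⟩ hs (by omega) (by omega)
  · have c := bool_of (HW.tp x (by omega) (by omega)) h3
    have r1 := rp_rng (B := B) (o := o) false (B.y1 - 1)
    refine Lk.trans' (top_pt (q := rp B o false (B.y1 - 1)) c ⟨by omega, hp⟩ (by omega)) ?_
    exact src_lk S (x := x) (y := B.y1 - 1)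
      ⟨by omega, by omega, c, Or.inr (Or.inr (Or.inl ⟨rfl, by omega, rfl⟩))⟩ hs (by omega) (by omega)

/-- a step through a tile of the strip -/
def SStep (B R : BF) (W : Finset (ℤ × ℤ)) (o : Bool) (p q : ℤ × ℤ) : Prop :=
  ∃ x y, STile B R W o x y ∧ Tch x y p ∧ Tch x y q

/-- **Points joined in the strip are joined on the ring of the box.** -/
theorem strip_lk (S : StrN B R W cl cr τ) (HW : RingC B W cl cr) (hp : (p.1 + p.2) % 2 = pt o)
    (hq : (q.1 + q.2) % 2 = pt o) (hIp : ¬ B.InI p) (hIq : ¬ B.InI q)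
    (h : Relation.ReflTransGen (SStep B R W o) p q) : Lk B cl cr o p q := by
  have key : ∀ r, Relation.ReflTransGen (SStep B R W o) p r → p = r ∨
      ∃ x y s z, STile B R W o x y ∧ Tch x y r ∧ Src B R cl cr o x y s z ∧
        Lk B cl cr o p (rp B o s z) := by
    intro r hr
    induction hr with
    | refl => exact Or.inl rfl
    | tail _ h2 ih =>
      obtain ⟨x', y', t1, t2, t3⟩ := h2
      obtain ⟨s', z', hs'⟩ := src_of S t1
      refine Or.inr ⟨x', y', s', z', t1, t3, hs', ?_⟩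
      rcases ih with rfl | ⟨x, y, s, z, k1, k2, k3, k4⟩
      · exact bd_src S HW t1 t2 hp hIp hs'
      · unfold Tch at k2 t2
        exact Lk.trans' k4 (src_lk S k3 hs' (by omega) (by omega))
  rcases key q h with rfl | ⟨x, y, s, z, k1, k2, k3, k4⟩
  · exact fun A _ => Cn.refl _ _ _
  · exact Lk.trans' k4 (Lk.symm' (bd_src S HW k1 k2 hq hIq k3))

variable {cl' cr' : ℤ → Bool} {τ' : ℤ}

lemma SI_sub_GB (S : StrN B R W cl cr τ) : SI R ⊆ B.GB := by
  intro e he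
  obtain ⟨x, y, rfl⟩ := exists_lt (odd_RT he)
  rw [mem_SI] at he
  rw [BF.mem_GB]
  have a1 := S.st.x0
  have a2 := S.st.x1
  have a3 := S.st.y0
  have a4 := S.st.y1
  unfold BF.InB
  omega

lemma ring_sd (S : StrN B R W cl' cr' τ') (H : RingC B A cl cr) : RingC B (A \ SI R) cl cr := by
  refine H.congr fun x y _ h2 => ?_
  rw [mem_sdiff]
  refine ⟨fun h => h.1, fun h => ⟨h, fun h3 => h2 ?_⟩⟩
  rw [mem_SI] at h3
  rw [mem_Si]
  have a1 := S.st.x0
  have a2 := S.st.x1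
  have a3 := S.st.y0
  have a4 := S.st.y1
  omega

lemma ring_un (S : StrN B R W cl' cr' τ') (H : RingC B A cl cr) : RingC B (SI R ∪ A) cl cr := by
  refine H.congr fun x y _ h2 => ?_
  rw [mem_union]
  refine ⟨fun h => h.resolve_left fun h3 => h2 ?_, Or.inr⟩
  rw [mem_SI] at h3
  rw [mem_Si]
  have a1 := S.st.x0
  have a2 := S.st.x1
  have a3 := S.st.y0
  have a4 := S.st.y1
  omega

/-- **Open connections outside of `SI R` do not depend on the strip.** -/
theorem co_trS (S : StrN B R W cl cr τ) (HW : RingC B W cl cr)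
    (S' : StrN B R' W' cl' cr' τ') (HW' : RingC B W' cl cr)
    (ho : ∀ e, e ∉ B.GB → e ∈ W → e ∈ W') {u v : ℤ × ℤ} (hu : ¬ B.InI (tv u)) (hv : ¬ B.InI (tv v))
    (h : Co (W \ SI R) u v) : Co (W' \ SI R') u v := by
  refine rtg_transfer (R := Ad (W \ B.GB)) (F := Ad ((W \ SI R) ∩ B.GB)) (G := Co (W' \ SI R'))
    (T := fun u => ¬ B.InI (tv u)) (fun a => Co.refl _ _) (fun a b c h1 h2 => h1.trans h2) ?_ ?_ hu hv ?_
  · intro a b hab
    obtain ⟨x, y, e, h1, h2⟩ := touch_v hab.1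
    have h3 := hab.2
    rw [mem_sdiff] at h3
    have h4 := h3.2
    rw [e, BF.mem_GB] at h4
    unfold BF.InB at h4
    refine ⟨?_, ?_, ?_⟩
    · unfold BF.InI; omega
    · unfold BF.InI; omega
    · refine Relation.ReflTransGen.single ⟨hab.1, mem_sdiff.2 ⟨ho _ h3.2 h3.1, fun h5 => h3.2 (SI_sub_GB S' h5)⟩⟩
  · intro a b ha hb hab
    obtain ⟨e1, e2⟩ := gp_tv a
    obtain ⟨e3, e4⟩ := gp_tv b
    have h5 : Relation.ReflTransGen (SStep B R W true) (tv a) (tv b) := by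
      refine Relation.ReflTransGen.lift tv (fun c d hcd => ?_) _ _ hab
      obtain ⟨x, y, e, h1, h2⟩ := touch_v hcd.1
      have h3 := hcd.2
      rw [mem_inter, mem_sdiff, e, BF.mem_GB] at h3
      exact ⟨x, y, ⟨h3.2, h3.1.2, by simpa using h3.1.1⟩, h1, h2⟩
    have h6 := strip_lk S HW (o := true) (by rw [e2]; rfl) (by rw [e4]; rfl) ha hb h5 _ (ring_sd S' HW')
    rw [cn_true, e1, e3] at h6
    exact h6
  · refine Relation.ReflTransGen.mono (fun a b hab => ?_) _ _ h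
    by_cases hg : a + b ∈ B.GB
    · exact Or.inr ⟨hab.1, mem_inter.2 ⟨hab.2, hg⟩⟩
    · exact Or.inl ⟨hab.1, mem_sdiff.2 ⟨(mem_sdiff.1 hab.2).1, hg⟩⟩

/-- **Closed connections outside of `SI R` do not depend on the strip.** -/
theorem dco_trS (S : StrN B R W cl cr τ) (HW : RingC B W cl cr)
    (S' : StrN B R' W' cl' cr' τ') (HW' : RingC B W' cl cr)
    (ho : ∀ e, e ∉ B.GB → e ∈ W' → e ∈ W) {f g : ℤ × ℤ} (hf : ¬ B.InI (tf f)) (hg : ¬ B.InI (tf g))
    (h : DCo (SI R ∪ W) f g) : DCo (SI R' ∪ W') f g := by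
  rw [dco_iff] at h
  refine rtg_transfer (R := fun a b => DAd (SI R ∪ W) a b ∧ a + b - (1, 1) ∉ B.GB)
    (F := fun a b => DAd (SI R ∪ W) a b ∧ a + b - (1, 1) ∈ B.GB) (G := DCo (SI R' ∪ W'))
    (T := fun u => ¬ B.InI (tf u)) (fun a => DCo.refl _ _) (fun a b c h1 h2 => h1.trans h2) ?_ ?_ hf hg ?_
  · rintro a b ⟨hab, h0⟩
    obtain ⟨x, y, e, h1, h2⟩ := touch_f hab.1
    have h3 := hab.2
    have h4 := h0
    rw [e, BF.mem_GB] at h4
    unfold BF.InB at h4
    refine ⟨?_, ?_, ?_⟩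
    · unfold BF.InI; omega
    · unfold BF.InI; omega
    · refine DCo.step hab.1 ?_
      rw [mem_union, not_or] at h3 ⊢
      exact ⟨fun h5 => h0 (SI_sub_GB S' h5), fun h5 => h3.2 (ho _ h0 h5)⟩
  · intro a b ha hb hab
    obtain ⟨e1, e2⟩ := gp_tf a
    obtain ⟨e3, e4⟩ := gp_tf b
    have h5 : Relation.ReflTransGen (SStep B R W false) (tf a) (tf b) := by
      refine Relation.ReflTransGen.lift tf (fun c d hcd => ?_) _ _ hab
      obtain ⟨hcd, h0⟩ := hcd
      obtain ⟨x, y, e, h1, h2⟩ := touch_f hcd.1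
      have h3 := hcd.2
      rw [mem_union, not_or, e] at h3
      rw [e, BF.mem_GB] at h0
      exact ⟨x, y, ⟨h0, h3.1, by simpa using h3.2⟩, h1, h2⟩
    have h6 := strip_lk S HW (o := false) (by rw [e2]; rfl) (by rw [e4]; rfl) ha hb h5 _ (ring_un S' HW')
    rw [cn_false, e1, e3] at h6
    exact h6
  · refine Relation.ReflTransGen.mono (fun a b hab => ?_) _ _ h
    by_cases hg : a + b - (1, 1) ∈ B.GB
    · exact Or.inr ⟨hab, hg⟩
    · exact Or.inl ⟨hab, hg⟩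

end Pool.Agent.H52.W
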