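import Mathlib
import Pool.Agent.H74.Win.Asm
import Pool.Agent.H52.W.RingN
import Pool.Agent.H52.W.StripN

set_option autoImplicit false
open Finset

/-! # The middle environment and the translate, any number of marks and any outside

`bD D` : the large box of the window. `OTyN O` : the root strand enters the large box at one of the marks.
`mid_sameN` : the translate has the increments of the middle environment, up to a unit; there are no hypotheses on
the outside except `OTyN`. -/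

namespace Pool.Agent.H52.W

open Pool.Agent.H75.Perc hiding ph
open Pool.Agent.H75.TwoArm Pool.Agent.Q1 Pool.Agent.H33.Q1
open Pool.Agent.H75.Four hiding ev Tch
open Pool.Agent.H69.Q1
open Pool.Agent.H74.Win
open Pool.Agent.H74.R45 (exists_lt odd_RT)
open Pool.Agent.H46.Sp (Win Out)
open Pool.Agent.H46.Sp.Win (m_min M_max m_lt_M)
open Pool.Agent.H42.Sp (Sd Ix kt rt)
open Pool.Agent.H44.FM.WG (Gr)
open Pool.Agent.H44.FM.WG.Gr
open Pool.Agent.H31.Sp (Coarse CoarseC)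
open Pool.Agent.H33.Sp (shl mem_shl Tch BF bfD shX shc inB_bf GB_bf)
open Pool.Agent.H33.Sp.BF (SI Str Mk et ef mx co_str dco_str)
open Pool.Agent.H13.Sp (RingC WFc MarkR)
open Pool.Agent.Q1.Env (TConn TAdj)
open Pool.Agent.Q1.M6c (PlaneEnv planeEnv_plane)

variable {D : Win} {n H : ℤ} {A B : ℤ → ℤ} {YP YQ : ℤ} {CL CR : ℤ → Bool}
variable {p : Bool} {x y x' y' z Y τ σ τ' b : ℤ} {s : Finset Gr} {Q : Ix → Prop} {c : ℤ → Bool}
variable {pA pB : Bool} {sA sB : Finset Gr} {tx ty : ℤ} {O : OutB D} {X X1 X3 : Bool × ℤ}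

/-- the large box of the window -/
def bD (D : Win) : BF := bfD D 2 le_rfl (false, 0)

lemma inB_bD : (bD D).InB x y ↔ InB D x y := inB_bf

lemma GB_bD : (bD D).GB = GB D := GB_bf

/-- **The outside of a window**: the root strand enters the large box at a mark. -/
structure OTyN (O : OutB D) : Prop where
  odd : ∀ e ∈ O.Wo, (e.1 + e.2) % 2 = 1
  rb : RootB O
  root : ∃ Xs, WFc (cLf D) (cRt D) Xs ∧ ∀ W : Finset (ℤ × ℤ), W ⊆ GB D →
    RingC (bD D) W (cLf D) (cRt D) →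
    Co (W ∪ O.Wo) (vx O.c0) ((bD D).nv ((bD D).pos Xs)) ∧
    DCo (W ∪ O.Wo) (fi O.c0) ((bD D).nd ((bD D).pos Xs + 1))

/-- sufficient condition -/
lemma oTyN_of (h1 : ∀ e ∈ O.Wo, (e.1 + e.2) % 2 = 1) (h2 : RootB O) (hX : WFc (cLf D) (cRt D) X)
    (h3 : Co O.Wo (vx O.c0) ((bD D).nv ((bD D).pos X)))
    (h4 : DCo (GB D ∪ O.Wo) (fi O.c0) ((bD D).nd ((bD D).pos X + 1))) : OTyN O :=
  ⟨h1, h2, X, hX, fun _ hW _ => ⟨h3.mono subset_union_right, h4.anti (union_subset_union_left hW)⟩⟩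

/-! ### Colours along the sides -/

lemma cst_aux {c : ℤ → Bool} (hc : ∀ b, c (b - 1) ≠ c b → ∀ z, b ≤ z → z ≤ b + 6 → c z = c b)
    {z1 z z2 : ℤ} (h1 : z1 ≤ z) (h2 : z ≤ z2) (h3 : z2 ≤ z1 + 6) (h : c z1 = c z2) : c z = c z1 := by
  by_contra hne
  classical
  have hex : ∃ k : ℕ, c (z1 + k) ≠ c z1 := ⟨(z - z1).toNat, by
    rw [show z1 + ((z - z1).toNat : ℤ) = z by omega]; exact hne⟩
  set k := Nat.find hex with hk
  have k1 : c (z1 + k) ≠ c z1 := Nat.find_spec hex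
  have k0 : 0 < k := by
    rcases Nat.eq_zero_or_pos k with h0 | h0
    · rw [h0] at k1; simp at k1
    · exact h0
  have k2 : c (z1 + k - 1) = c z1 := by
    have := Nat.find_min hex (m := k - 1) (by omega)
    rw [show z1 + ((k - 1 : ℕ) : ℤ) = z1 + k - 1 by omega] at this
    simpa using this
  have k3 : (k : ℤ) ≤ z - z1 := by
    have : k ≤ (z - z1).toNat := Nat.find_min' hex (by
      rw [show z1 + ((z - z1).toNat : ℤ) = z by omega]; exact hne)
    omega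
  have := hc (z1 + k) (by rw [k2]; exact k1.symm) z2 (by omega) (by omega)
  exact k1 (by rw [← this, h])

lemma cst_D (C : CoarseC D n H A B YP YQ CL CR) (h30 : 30 ≤ n) (s : Bool) {z1 z z2 : ℤ} (h1 : z1 ≤ z)
    (h2 : z ≤ z2) (h3 : z2 ≤ z1 + 6) (h : cs (cLf D) (cRt D) s z1 = cs (cLf D) (cRt D) s z2) :
    cs (cLf D) (cRt D) s z = cs (cLf D) (cRt D) s z1 := by
  cases s
  · exact cst_aux (c := cLf D) (fun b hb => (chL_of C h30 hb).up) h1 h2 h3 h
  · exact cst_aux (c := cRt D) (fun b hb => (chR_of C h30 hb).up) h1 h2 h3 h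

lemma cLf_lo (h : z < -1) : cLf D z = D.cb := by unfold cLf; rw [if_pos h]
lemma cRt_lo (h : z < -1) : cRt D z = D.cb := by unfold cRt; rw [if_pos h]
lemma cLf_hi (h : D.h ≤ z) : cLf D z = D.ct := by
  have := D.hh
  unfold cLf; rw [if_neg (by omega), if_pos h]
lemma cRt_hi (h : D.h ≤ z) : cRt D z = D.ct := by
  have := D.hh
  unfold cRt; rw [if_neg (by omega), if_pos h]

/-! ### The strips of the two frames -/

/-- the middle environment after the strips -/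
theorem strN_T (C : CoarseC D n H A B YP YQ CL CR) (h30 : 30 ≤ n) (h : Tw pA sA pB sB tx ty) :
    StrN (bD D) (bRs D ty h.ht 0 0) (WT D pB sB tx ty ty ∪ O.Wo) (cLf D) (cRt D) ty := by
  have hv := h.vals
  have hh := D.hh
  have g1 := Pool.Agent.H46.Sp.Win.a_min (D := D) (y := D.yQ) D.Q0 D.Q1
  have g2 := D.ab D.yQ D.Q0 D.Q1
  have e0 : (bRs D ty h.ht 0 0).x0 = D.a (D.yP - 1) - 3 - 0 := rfl
  have e1 : (bRs D ty h.ht 0 0).x1 = D.b D.yQ + 3 - 0 := rfl
  have e2 : (bRs D ty h.ht 0 0).y0 = max (-4) (-4 + ty) - 0 := rfl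
  have e3 : (bRs D ty h.ht 0 0).y1 = min (D.h + 3) (D.h + 3 + ty) - 0 := rfl
  have f0 : (bD D).x0 = D.a (D.yP - 1) - 4 := rfl
  have f1 : (bD D).x1 = D.b D.yQ + 4 := rfl
  have f2 : (bD D).y0 = -4 := rfl
  have f3 : (bD D).y1 = D.h + 3 := rfl
  have key : ∀ x y, InB D x y → IC D x → (y ≤ (bRs D ty h.ht 0 0).y0 ∨ (bRs D ty h.ht 0 0).y1 ≤ y + 1) →
      (lt (x, y) ∈ WT D pB sB tx ty ty ∪ O.Wo ↔ cT D ty x y = true) := by
    intro x y h1 h2 h3
    have hK : lt (x, y) ∉ K2 D pB tx ty := fun h4 => by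
      obtain ⟨⟨x', y', k1, k2, k3, k4, k5⟩, k6⟩ := mem_K2.1 h4
      unfold Zn at k6
      unfold InP at k5
      omega
    rw [mem_union, mem_WT]
    simp only [hK, h1, h2, false_and, true_and, not_false_eq_true, false_or, not_true_eq_false, or_false]
    exact ⟨fun h4 => h4.resolve_right fun h5 => O.far x y h5 h1, Or.inl⟩
  refine ⟨(strD_T C h30 h 2 le_rfl (false, 0)).far fun x y hl => by rw [inB_bf]; exact O.far x y hl,
    by omega, fun x y h1 h2 h3 h4 => ?_, fun x y h1 h2 h3 h4 => ?_, by omega, by omega, by omega, by omega,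
    ?_, ?_, fun s z1 z z2 _ h2 h3 h4 _ h6 => cst_D C h30 s h2 h3 h4 h6⟩
  · rw [key x y (inB_bD.1 h1) (by unfold IC; omega) (Or.inl h4), f2, cLf_lo (by omega)]
    unfold Pool.Agent.H74.Win.cT
    rw [cLf_lo (by omega), cRt_lo (by omega), ite_self]
  · rw [key x y (inB_bD.1 h1) (by unfold IC; omega) (Or.inr h4), f3, cLf_hi (by omega)]
    unfold Pool.Agent.H74.Win.cT
    rw [cLf_hi (by omega), cRt_hi (by omega), ite_self]
  · rw [f2, cLf_lo (by omega), cRt_lo (by omega)]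
  · rw [f3, cLf_hi (by omega), cRt_hi (by omega)]

/-- the translate -/
theorem strN_B (C : CoarseC D n H A B YP YQ CL CR) (h30 : 30 ≤ n) (h : Tw pA sA pB sB tx ty) :
    StrN (bD D) (bRs D ty h.ht tx ty) (WB D pB sB ∪ O.Wo) (cLf D) (cRt D) 0 := by
  have hv := h.vals
  have hh := D.hh
  have g1 := Pool.Agent.H46.Sp.Win.a_min (D := D) (y := D.yQ) D.Q0 D.Q1
  have g2 := D.ab D.yQ D.Q0 D.Q1
  have e0 : (bRs D ty h.ht tx ty).x0 = D.a (D.yP - 1) - 3 - tx := rfl
  have e1 : (bRs D ty h.ht tx ty).x1 = D.b D.yQ + 3 - tx := rfl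
  have e2 : (bRs D ty h.ht tx ty).y0 = max (-4) (-4 + ty) - ty := rfl
  have e3 : (bRs D ty h.ht tx ty).y1 = min (D.h + 3) (D.h + 3 + ty) - ty := rfl
  have f0 : (bD D).x0 = D.a (D.yP - 1) - 4 := rfl
  have f1 : (bD D).x1 = D.b D.yQ + 4 := rfl
  have f2 : (bD D).y0 = -4 := rfl
  have f3 : (bD D).y1 = D.h + 3 := rfl
  have key : ∀ x y, InB D x y → (lt (x, y) ∈ WB D pB sB ∪ O.Wo ↔ lt (x, y) ∈ WB D pB sB) := by
    intro x y h1
    rw [mem_union]
    exact ⟨fun h4 => h4.resolve_right fun h5 => O.far x y h5 h1, Or.inl⟩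
  refine ⟨(strD_B h 2 le_rfl (false, 0)).far fun x y hl => by rw [inB_bf]; exact O.far x y hl,
    by omega, fun x y h1 h2 h3 h4 => ?_, fun x y h1 h2 h3 h4 => ?_, by omega, by omega, by omega, by omega,
    ?_, ?_, fun s z1 z z2 _ h2 h3 h4 _ h6 => cst_D C h30 s h2 h3 h4 h6⟩
  · rw [key x y (inB_bD.1 h1), WOn_bot (inB_bD.1 h1) (by omega), f2, cLf_lo (by omega)]
  · rw [key x y (inB_bD.1 h1), WOn_top (inB_bD.1 h1) (by omega), f3, cLf_hi (by omega)]
  · rw [f2, cLf_lo (by omega), cRt_lo (by omega)]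
  · rw [f3, cLf_hi (by omega), cRt_hi (by omega)]

/-- the ring of the large box, middle environment -/
theorem ring_T (C : CoarseC D n H A B YP YQ CL CR) (h30 : 30 ≤ n) (h : Tw pA sA pB sB tx ty) :
    RingC (bD D) (WT D pB sB tx ty ty ∪ O.Wo) (cLf D) (cRt D) := by
  have S := strN_T (O := O) C h30 h
  have hv := h.vals
  have hh := D.hh
  have g1 := Pool.Agent.H46.Sp.Win.a_min (D := D) (y := D.yQ) D.Q0 D.Q1
  have g2 := D.ab D.yQ D.Q0 D.Q1
  have e0 : (bRs D ty h.ht 0 0).x0 = D.a (D.yP - 1) - 3 - 0 := rfl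
  have e1 : (bRs D ty h.ht 0 0).x1 = D.b D.yQ + 3 - 0 := rfl
  have e2 : (bRs D ty h.ht 0 0).y0 = max (-4) (-4 + ty) - 0 := rfl
  have e3 : (bRs D ty h.ht 0 0).y1 = min (D.h + 3) (D.h + 3 + ty) - 0 := rfl
  have f0 : (bD D).x0 = D.a (D.yP - 1) - 4 := rfl
  have f1 : (bD D).x1 = D.b D.yQ + 4 := rfl
  have f2 : (bD D).y0 = -4 := rfl
  have f3 : (bD D).y1 = D.h + 3 := rfl
  have hcb := S.cb
  have hct := S.ct
  refine ⟨fun y h1 h2 => ?_, fun y h1 h2 => ?_, fun x h1 h2 => ?_, fun x h1 h2 => ?_⟩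
  · exact S.st.hL _ _ (by unfold BF.InB; omega) (by omega)
  · exact S.st.hR _ _ (by unfold BF.InB; omega) (by omega)
  · by_cases k1 : x < (bRs D ty h.ht 0 0).x0
    · exact S.st.hL _ _ (by unfold BF.InB; omega) (by omega)
    · by_cases k2 : (bRs D ty h.ht 0 0).x1 ≤ x
      · rw [← hcb]
        exact S.st.hR _ _ (by unfold BF.InB; omega) (by omega)
      · exact S.hB _ _ (by unfold BF.InB; omega) (by omega) (by omega) (by omega)
  · by_cases k1 : x < (bRs D ty h.ht 0 0).x0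
    · exact S.st.hL _ _ (by unfold BF.InB; omega) (by omega)
    · by_cases k2 : (bRs D ty h.ht 0 0).x1 ≤ x
      · rw [← hct]
        exact S.st.hR _ _ (by unfold BF.InB; omega) (by omega)
      · exact S.hT _ _ (by unfold BF.InB; omega) (by omega) (by omega) (by omega)

/-- the ring of the large box, translate -/
theorem ring_B : RingC (bD D) (WB D pB sB ∪ O.Wo) (cLf D) (cRt D) := by
  have hh := D.hh
  have g1 := Pool.Agent.H46.Sp.Win.a_min (D := D) (y := D.yQ) D.Q0 D.Q1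
  have g2 := D.ab D.yQ D.Q0 D.Q1
  have s0 := sh_nonneg pB
  have s1 := sh_le pB
  have f0 : (bD D).x0 = D.a (D.yP - 1) - 4 := rfl
  have f1 : (bD D).x1 = D.b D.yQ + 4 := rfl
  have f2 : (bD D).y0 = -4 := rfl
  have f3 : (bD D).y1 = D.h + 3 := rfl
  have key : ∀ x y, InB D x y → (lt (x, y) ∈ WB D pB sB ∪ O.Wo ↔ lt (x, y) ∈ WB D pB sB) := by
    intro x y h1
    rw [mem_union]
    exact ⟨fun h4 => h4.resolve_right fun h5 => O.far x y h5 h1, Or.inl⟩
  have hb : ∀ x y, (bD D).InB x y → InB D x y := fun x y => inB_bD.1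
  refine ⟨fun y h1 h2 => ?_, fun y h1 h2 => ?_, fun x h1 h2 => ?_, fun x h1 h2 => ?_⟩
  · have hI := hb (bD D).x0 y (by unfold BF.InB; omega)
    rw [key _ _ hI]
    exact WOn_left hI (by omega)
  · have hI := hb ((bD D).x1 - 1) y (by unfold BF.InB; omega)
    rw [key _ _ hI]
    exact WOn_right hI (by omega)
  · have hI := hb x (bD D).y0 (by unfold BF.InB; omega)
    rw [key _ _ hI, WOn_bot hI (by omega), cLf_lo (by omega)]
  · have hI := hb x ((bD D).y1 - 1) (by unfold BF.InB; omega)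
    rw [key _ _ hI, WOn_top hI (by omega), cLf_hi (by omega)]

/-! ### The ports of the box -/

lemma nv_nI (B : BF) (p : ℤ) : ¬ B.InI (tv (B.nv p)) := by
  have hx := B.hx
  unfold BF.nv
  rw [Pool.Agent.H33.Sp.tv_gp (by omega)]
  unfold BF.InI BF.px
  split_ifs <;> simp only <;> omega

lemma nd_nI (B : BF) (p : ℤ) : ¬ B.InI (tf (B.nd p)) := by
  have hx := B.hx
  unfold BF.nd
  rw [Pool.Agent.H33.Sp.tf_gp (by omega)]
  unfold BF.InI BF.px
  split_ifs <;> simp only <;> omega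

/-- a mark moved by `ty` -/
lemma wfc_sh {cl cr : ℤ → Bool} (ty : ℤ) (hX : WFc (fun y => cl (y - ty)) (fun y => cr (y - ty)) X) :
    WFc cl cr (X.1, X.2 - ty) := by
  unfold Pool.Agent.H13.Sp.WFc at hX ⊢
  rcases hs : X.1 with _ | _
  · simp only [hs, Bool.false_eq_true, if_false] at hX ⊢
    rw [show X.2 - ty - 1 = X.2 - 1 - ty by ring]
    exact hX
  · simp only [hs, if_true] at hX ⊢
    rw [show X.2 - ty + 1 = X.2 + 1 - ty by ring]
    exact hX

/-! ### The assembly -/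

lemma shl_neg (v : ℤ × ℤ) (W : Finset (ℤ × ℤ)) : shl (-v) (shl v W) = W := by
  ext e
  rw [mem_shl, mem_shl]
  simp

lemma shl_sdiff (v : ℤ × ℤ) (A B : Finset (ℤ × ℤ)) : shl v (A \ B) = shl v A \ shl v B := by
  ext e
  rw [mem_shl, mem_sdiff, mem_sdiff, mem_shl, mem_shl]

lemma co_sh_iff {v u w : ℤ × ℤ} {W : Finset (ℤ × ℤ)} : Co (shl v W) (u + v) (w + v) ↔ Co W u w := by
  refine ⟨fun h => ?_, Pool.Agent.H33.Sp.co_sh⟩
  have := Pool.Agent.H33.Sp.co_sh (v := -v) h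
  rwa [shl_neg, add_neg_cancel_right, add_neg_cancel_right] at this

lemma dco_sh_iff {v u w : ℤ × ℤ} {W : Finset (ℤ × ℤ)} : DCo (shl v W) (u + v) (w + v) ↔ DCo W u w := by
  refine ⟨fun h => ?_, Pool.Agent.H33.Sp.dco_sh⟩
  have := Pool.Agent.H33.Sp.dco_sh (v := -v) h
  rwa [shl_neg, add_neg_cancel_right, add_neg_cancel_right] at this

lemma ring_far {W : Finset (ℤ × ℤ)} {cl cr : ℤ → Bool} (h : RingC (bD D) (W ∪ O.Wo) cl cr) :
    RingC (bD D) W cl cr :=
  h.congr fun x y h1 _ => by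
    rw [mem_union]
    exact ⟨Or.inl, fun h2 => h2.resolve_right fun h3 => O.far x y h3 (inB_bD.1 h1)⟩

/-- **The translate and the middle environment have the same increments**, up to a unit. -/
theorem mid_sameN (C : CoarseC D n H A B YP YQ CL CR) (h30 : 30 ≤ n) (h : Tw pA sA pB sB tx ty)
    (hO : OTyN O) :
    ∃ κ : ℤ, ∀ c, (lab c ∈ EC D pB sB tx ty ∨ plab c ∈ EC D pB sB tx ty) →
      (shX (vt tx ty) (XN O pB sB)).inc c = ph κ * (XC2 O h).inc c := by
  have hconn : TConn (EC D pB sB tx ty) := tConn_EC C.toCoarse h30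
  have hp := h.disp.2.2.1
  have hv := h.vals
  -- the strips
  obtain ⟨κ1, k1⟩ := (ceq_WC2 C h30 h hO.rb).inc hconn (X := XC2 O h) (Y := XT O h)
    (plane_XB hO.odd) (plane_XB hO.odd) rfl rfl rfl rfl
  -- the ring
  set R := bRs D ty h.ht 0 0 with hR
  set R' := bRs D ty h.ht tx ty with hR'
  set WW := WT D pB sB tx ty ty ∪ O.Wo with hWW
  set WW0 := WB D pB sB ∪ O.Wo with hWW0
  set WW' := shl (vt tx ty) WW0 with hWW'
  have hl : ∀ x y, R.InB x y → (lt (x, y) ∈ WW ↔ lt (x - tx, y - ty) ∈ WB D pB sB) := by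
    intro x y hxy
    rw [in_bRs] at hxy
    rw [hWW, mem_union, WT_R C h30 h hxy, mem_shl_lt hp]
    refine ⟨fun h1 => h1.resolve_right fun h2 => O.far x y h2 ?_, Or.inl⟩
    unfold InR IC at hxy
    unfold InB
    omega
  have hl' : ∀ x y, R.InB x y → (lt (x, y) ∈ WW' ↔ lt (x - tx, y - ty) ∈ WB D pB sB) := by
    intro x y hxy
    rw [in_bRs] at hxy
    rw [hWW', mem_shl_lt hp, hWW0, mem_union]
    refine ⟨fun h1 => h1.resolve_right fun h2 => O.far _ _ h2 ?_, Or.inl⟩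
    unfold InR IC at hxy
    unfold InB
    omega
  have S1 : StrN (bD D) R WW (cLf D) (cRt D) ty := strN_T C h30 h
  have S2 : StrN (bD D) R' WW0 (cLf D) (cRt D) 0 := strN_B C h30 h
  have G1 : RingC (bD D) WW (cLf D) (cRt D) := ring_T C h30 h
  have G2 : RingC (bD D) WW0 (cLf D) (cRt D) := ring_B
  have M1 : ∀ X, WFc (cLf D) (cRt D) X → Mk (bD D) R (cLf D) (cRt D) ty X := fun X hX =>
    mkE_of C h30 h.ht hX (Or.inl ⟨rfl, rfl, rfl⟩) 2 le_rfl (false, 0)
  have M2 : ∀ X, WFc (cLf D) (cRt D) X → Mk (bD D) R' (cLf D) (cRt D) 0 X := fun X hX =>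
    mkE_of C h30 h.ht hX (Or.inr ⟨rfl, rfl⟩) 2 le_rfl (false, 0)
  -- translations of the points
  have ev : ∀ X : Bool × ℤ, et (mx R' X) (X.2 + 0) + vt tx ty = Pool.Agent.H13.Sp.vR R (X.1, X.2 + ty) := by
    intro X
    rw [et_sh hp]
    unfold Pool.Agent.H13.Sp.vR Pool.Agent.H33.Sp.BF.mx
    have a1 : R'.x1 = R.x1 - tx := by rw [hR, hR']; unfold bRs; simp only; ring
    have a2 : R'.x0 = R.x0 - tx := by rw [hR, hR']; unfold bRs; simp only; ring
    rw [a1, a2]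
    simp only
    split_ifs
    · congr 1 <;> ring
    · congr 1 <;> ring
  have ef' : ∀ X : Bool × ℤ, ef (mx R' X) (R'.fr (X.1, X.2 + 0)) + vt tx ty =
      Pool.Agent.H13.Sp.fR R (X.1, X.2 + ty) := by
    intro X
    rw [ef_sh hp]
    unfold Pool.Agent.H13.Sp.fR Pool.Agent.H33.Sp.BF.mx Pool.Agent.H33.Sp.BF.fr
    have a1 : R'.x1 = R.x1 - tx := by rw [hR, hR']; unfold bRs; simp only; ring
    have a2 : R'.x0 = R.x0 - tx := by rw [hR, hR']; unfold bRs; simp only; ring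
    rw [a1, a2]
    simp only
    split_ifs
    · show Pool.Agent.H33.Sp.BF.ef _ _ = Pool.Agent.H33.Sp.BF.ef _ _
      congr 1 <;> ring
    · show Pool.Agent.H33.Sp.BF.ef _ _ = Pool.Agent.H33.Sp.BF.ef _ _
      congr 1 <;> ring
  -- from the ports of the box to the marks
  have pv1 : ∀ X, WFc (cLf D) (cRt D) X → Co (WW \ SI R) ((bD D).nv ((bD D).pos X))
      (Pool.Agent.H13.Sp.vR R (X.1, X.2 + ty)) := fun X hX => co_str S1.st (M1 X hX)
  have pf1 : ∀ X, WFc (cLf D) (cRt D) X → DCo (SI R ∪ WW) ((bD D).nd ((bD D).pos X + 1))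
      (Pool.Agent.H13.Sp.fR R (X.1, X.2 + ty)) := fun X hX => dco_str S1.st (M1 X hX)
  have pv2 : ∀ X, WFc (cLf D) (cRt D) X → Co (WW0 \ SI R') ((bD D).nv ((bD D).pos X))
      (et (mx R' X) (X.2 + 0)) := fun X hX => co_str S2.st (M2 X hX)
  have pf2 : ∀ X, WFc (cLf D) (cRt D) X → DCo (SI R' ∪ WW0) ((bD D).nd ((bD D).pos X + 1))
      (ef (mx R' X) (R'.fr (X.1, X.2 + 0))) := fun X hX => dco_str S2.st (M2 X hX)
  have q1 : WW' \ SI R = shl (vt tx ty) (WW0 \ SI R') := by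
    rw [shl_sdiff, hR', shl_SI h]
  have q2 : SI R ∪ WW' = shl (vt tx ty) (SI R' ∪ WW0) := by
    rw [Pool.Agent.H33.Sp.shl_union, hR', shl_SI h]
  have far : ∀ e, e ∉ (bD D).GB → (e ∈ WW ↔ e ∈ WW0) := by
    intro e he
    rw [GB_bD] at he
    rw [hWW, hWW0, mem_union, mem_union]
    constructor
    · rintro (h1 | h1)
      · exact absurd (WT_sub_GB h1) he
      · exact Or.inr h1
    · rintro (h1 | h1)
      · exact absurd (WB_sub h1) he
      · exact Or.inr h1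
  -- the outer connections of the marks
  have tv : ∀ X Y, WFc (cLf D) (cRt D) X → WFc (cLf D) (cRt D) Y →
      (Co (WW \ SI R) (Pool.Agent.H13.Sp.vR R (X.1, X.2 + ty)) (Pool.Agent.H13.Sp.vR R (Y.1, Y.2 + ty)) ↔
      Co (WW' \ SI R) (Pool.Agent.H13.Sp.vR R (X.1, X.2 + ty)) (Pool.Agent.H13.Sp.vR R (Y.1, Y.2 + ty))) := by
    intro X Y hX hY
    rw [q1, ← ev X, ← ev Y, co_sh_iff, ev X, ev Y]
    constructor
    · intro h1
      have h2 := ((pv1 X hX).trans h1).trans (pv1 Y hY).symm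
      have h3 := co_trS S1 G1 S2 G2 (fun e he => (far e he).1) (nv_nI _ _) (nv_nI _ _) h2
      exact ((pv2 X hX).symm.trans h3).trans (pv2 Y hY)
    · intro h1
      have h2 := ((pv2 X hX).trans h1).trans (pv2 Y hY).symm
      have h3 := co_trS S2 G2 S1 G1 (fun e he => (far e he).2) (nv_nI _ _) (nv_nI _ _) h2
      exact ((pv1 X hX).symm.trans h3).trans (pv1 Y hY)
  have tf : ∀ X Y, WFc (cLf D) (cRt D) X → WFc (cLf D) (cRt D) Y →
      (DCo (SI R ∪ WW) (Pool.Agent.H13.Sp.fR R (X.1, X.2 + ty)) (Pool.Agent.H13.Sp.fR R (Y.1, Y.2 + ty)) ↔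
      DCo (SI R ∪ WW') (Pool.Agent.H13.Sp.fR R (X.1, X.2 + ty)) (Pool.Agent.H13.Sp.fR R (Y.1, Y.2 + ty))) := by
    intro X Y hX hY
    rw [q2, ← ef' X, ← ef' Y, dco_sh_iff, ef' X, ef' Y]
    constructor
    · intro h1
      have h2 := ((pf1 X hX).trans h1).trans (pf1 Y hY).symm
      have h3 := dco_trS S1 G1 S2 G2 (fun e he => (far e he).2) (nd_nI _ _) (nd_nI _ _) h2
      exact ((pf2 X hX).symm.trans h3).trans (pf2 Y hY)
    · intro h1
      have h2 := ((pf2 X hX).trans h1).trans (pf2 Y hY).symm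
      have h3 := dco_trS S2 G2 S1 G1 (fun e he => (far e he).1) (nd_nI _ _) (nd_nI _ _) h2
      exact ((pf1 X hX).symm.trans h3).trans (pf1 Y hY)
  have mk : ∀ X, MkP R (fun y => cLf D (y - ty)) (fun y => cRt D (y - ty)) X →
      WFc (cLf D) (cRt D) (X.1, X.2 - ty) := fun X hX => wfc_sh ty hX.2
  have sft : ∀ X : Bool × ℤ, X = ((X.1, X.2 - ty).1, (X.1, X.2 - ty).2 + ty) := fun X => by simp
  have hE : EC D pB sB tx ty ⊆ Pool.Agent.H13.Sp.Si R := EC_SI h
  have T1 : TrN R (EC D pB sB tx ty) WW WW' (fun y => cLf D (y - ty)) (fun y => cRt D (y - ty)) := by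
    refine trN_of hE fun X Y hX hY => ?_
    rw [sft X, sft Y]
    exact ⟨(tv _ _ (mk X hX) (mk Y hY)).1, (tf _ _ (mk X hX) (mk Y hY)).1⟩
  have T2 : TrN R (EC D pB sB tx ty) WW' WW (fun y => cLf D (y - ty)) (fun y => cRt D (y - ty)) := by
    refine trN_of hE fun X Y hX hY => ?_
    rw [sft X, sft Y]
    exact ⟨(tv _ _ (mk X hX) (mk Y hY)).2, (tf _ _ (mk X hX) (mk Y hY)).2⟩
  -- the roots
  obtain ⟨Xs, hXs, hroot⟩ := hO.root
  have r1 := (hroot _ WT_sub_GB (ring_far (O := O) G1)).1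
  have r2 := (hroot (SI R ∪ WT D pB sB tx ty ty)
    (union_subset (by rw [← GB_bD]; exact SI_sub_GB S1) WT_sub_GB)
    (ring_un S1 (ring_far (O := O) G1))).2
  have r3 := (hroot _ WB_sub (ring_far (O := O) G2)).1
  have r4 := (hroot (SI R' ∪ WB D pB sB)
    (union_subset (by rw [← GB_bD]; exact SI_sub_GB S2) WB_sub)
    (ring_un S2 (ring_far (O := O) G2))).2
  rw [union_assoc] at r2 r4
  obtain ⟨κ2, k2⟩ := same_ringN (B := R) (E := EC D pB sB tx ty) (W := WW) (W' := WW')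
    (cl := fun y => cLf D (y - ty)) (cr := fun y => cRt D (y - ty)) hconn
    (fun x y he => Pool.Agent.H33.Sp.BF.mem_SI.1 (EC_SI h he))
    (ringC_of h hl) (ringC_of h hl')
    (fun e he => by
      obtain ⟨x, y, rfl⟩ := exists_lt (odd_RT he)
      rw [Pool.Agent.H33.Sp.BF.mem_GB] at he
      rw [hl x y he, hl' x y he])
    T1 T2 (U := XT O h) (V := shX (vt tx ty) (XN O pB sB)) (plane_XB hO.odd)
    (Pool.Agent.H33.Sp.planeEnv_sh (plane_XN hO.odd)) rfl rfl (markR_of h C h30 hXs)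
    (r1.trans ((pv1 Xs hXs).mono sdiff_subset))
    ((r2.trans (pf1 Xs hXs)).anti (union_subset_union_left (EC_SI h)))
    (by
      have := Pool.Agent.H33.Sp.co_sh (v := vt tx ty) (r3.trans ((pv2 Xs hXs).mono sdiff_subset))
      rw [ev] at this
      rw [Pool.Agent.H33.Sp.shX_c0, Pool.Agent.H33.Sp.vx_shc]
      exact this)
    (by
      have := Pool.Agent.H33.Sp.dco_sh (v := vt tx ty) (r4.trans (pf2 Xs hXs))
      rw [← q2, ef'] at this
      rw [Pool.Agent.H33.Sp.shX_c0, Pool.Agent.H33.Sp.fi_shc]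
      exact this.anti (union_subset_union_left (EC_SI h)))
  refine ⟨κ2 + κ1, fun c hc => ?_⟩
  rw [k2 c hc, k1 c hc, ph_add, mul_assoc]

end Pool.Agent.H52.W
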