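import Mathlib
import Pool.Agent.H74.Win.Fin
import Pool.Agent.H20.Sp.WinC
import Pool.Agent.H52.W.AsmN

set_option autoImplicit false
open Finset

/-! # The comparison of the translated pairs of windows, any number of marks and any outside

`s12W_ofN` : the input `S12W` of helper44's windows for sequences of windows with any colours and outsides; the
only hypotheses are `CoarseC`, `RootC` and `OTyN`. `s12_cls` : for a class of windows of cells of side `2 m` with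
`OutOK O m`. -/

namespace Pool.Agent.H52.W

open Pool.Agent.H75.Perc hiding ph
open Pool.Agent.H75.TwoArm Pool.Agent.Q1 Pool.Agent.H33.Q1
open Pool.Agent.H75.Four hiding ev Tch
open Pool.Agent.H69.Q1
open Pool.Agent.Q1.M6c (PlaneK)
open Pool.Agent.H74.R45 (exists_lt Pot sg sg_congr lab_ve_E lab_he_N plab_ve_W plab_he_S he ve)
open Pool.Agent.H74.Win
open Pool.Agent.H46.Sp (Win Out)
open Pool.Agent.H42.Sp (Sd Ix kt rt)
open Pool.Agent.H44.FM.WG (Gr)
open Pool.Agent.H44.FM.WG.Gr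
open Pool.Agent.H44.FM.Wi (HN potN_HN S12W)
open Pool.Agent.H31.Sp (Coarse CoarseC)
open Pool.Agent.H33.Sp (shl mem_shl shX shc inc_sh)
open Pool.Agent.H14.Win (PotT potT_of_potN disp_eps natA_XN natA_XC2 RootC NatA)
open Pool.Agent.Q1.M6e (Lk)
open Filter

/-- **The input `S12W`**, any number of marks. -/
theorem s12W_ofN (hAP : AP PlaneK) {R : ℕ → ℕ} {F : Filter ℕ} {D : ℕ → Win} {O : ∀ j, OutB (D j)} {H : ℤ}
    {A B : ℤ → ℤ} (hR : Tendsto R F atTop)
    (hC : ∀ᶠ j in F, ∃ (YP YQ : ℤ) (CL CR : ℤ → Bool), CoarseC (D j) (R j) H A B YP YQ CL CR)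
    (hO : ∀ᶠ j in F, RootC (1 / 8) (R j) H A B (O j)) (hT : ∀ᶠ j in F, OTyN (O j)) : S12W R F O := by
  intro pA pB sA sB tx ty h
  classical
  have ex : ∀ j, ∃ κ : ℤ, (∃ (YP YQ : ℤ) (CL CR : ℤ → Bool), CoarseC (D j) (R j) H A B YP YQ CL CR) →
      30 ≤ R j → OTyN (O j) →
      ∀ c, (lab c ∈ EC (D j) pB sB tx ty ∨ plab c ∈ EC (D j) pB sB tx ty) →
        (shX (vt tx ty) (XN (O j) pB sB)).inc c = ph κ * (XC2 (O j) h).inc c := by
    intro j
    by_cases hj : (∃ (YP YQ : ℤ) (CL CR : ℤ → Bool), CoarseC (D j) (R j) H A B YP YQ CL CR) ∧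
      30 ≤ R j ∧ OTyN (O j)
    · obtain ⟨⟨YP, YQ, CL, CR, a1⟩, a2, a3⟩ := hj
      obtain ⟨κ, hκ⟩ := mid_sameN a1 (by exact_mod_cast a2) h a3
      exact ⟨κ, fun _ _ _ => hκ⟩
    · exact ⟨0, fun b1 b2 b3 => absurd ⟨b1, b2, b3⟩ hj⟩
  choose κ hκ using ex
  refine ⟨fun j => - κ j, fun η hη ε hε => ?_⟩
  obtain ⟨n0, hD⟩ := disp_eps hAP H A B hη hε
  filter_upwards [hC, hO, hT, hR.eventually_ge_atTop 30, hR.eventually_ge_atTop n0] with j a1 a2 a3 a4 a5
    a b hab hab'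
  have hk := hκ j a1 a4 a3
  obtain ⟨YP, YQ, CL, CR, a1⟩ := a1
  have h30 : (30 : ℤ) ≤ (R j : ℤ) := by exact_mod_cast a4
  have key := hD (R j) a5 (D j) YP YQ CL CR a1 (O j) a2 pA sA (EO (D j) pA (gA (D j) pA sA))
    (WO (D j) pA (gA (D j) pA sA) (Snat (D j) pA)) (EC (D j) pB sB tx ty) (WC2 (D j) pA sA pB sB tx ty)
    (EO_sub_EU.trans EU_sub) (WO_sub Snat_sub) (disj_O Snat_sub) (h.EC_sub2.trans K2_sub_GB) WC2_sub_GB
    h.disjC2 (natA_XN a1 h30 pA sA) (natA_XC2 a1 h30 h)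
    (fun x y => InP (D j) pA x y ∧ InP (D j) pB (x - tx) (y - ty)) (fun x y hxy => mem_EO.2 (Or.inl hxy.1))
    (fun x y hxy => h.mem_EC.2 (mem_EO.2 (Or.inl hxy.2))) (HN (O j) pA sA)
    (fun x y => ph (-κ j) * HN (O j) pB sB (x - tx) (y - ty))
    ((potT_of_potN (potN_HN (O j) pA sA)).mono fun x y hxy => hxy.1)
    (potT_mid h hk (potT_of_potN (potN_HN (O j) pB sB)) fun x y hxy => hxy.2) a b ?_
  · refine le_trans (le_of_eq ?_) key
    congr 1
    ring
  · intro x y e1 e2 e3 e4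
    refine ⟨hab x y e1 e2 e3 e4, hab' (x - tx) (y - ty) ?_ ?_ ?_ ?_⟩
    · push_cast
      rcases e1 with e1 | e1
      · left; linarith
      · right; linarith
    · push_cast
      rcases e2 with e2 | e2
      · left; linarith
      · right; linarith
    · push_cast
      rcases e3 with e3 | e3
      · left; linarith
      · right; linarith
    · push_cast
      rcases e4 with e4 | e4
      · left; linarith
      · right; linarith

/-- the root is away from the corners -/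
lemma rootC_ok {D : Win} {O : OutB D} {m : ℕ} {H : ℤ} {A B : ℤ → ℤ} (hm : 3 ≤ m)
    (C : Coarse D ((2 * m : ℕ) : ℤ) H A B) (hO : Pool.Agent.H20.Sp.OutOK O (m : ℤ)) :
    RootC (1 / 8) ((2 * m : ℕ) : ℤ) H A B O := by
  refine Pool.Agent.H14.Win.rootC_of C (N := (m : ℤ)) hO.root ?_
  have : (3 : ℝ) ≤ m := by exact_mod_cast hm
  push_cast
  linarith

/-- **The input `S12W` for a class of windows.** -/
theorem s12_cls (hAP : AP PlaneK) {H : ℤ} {A B : ℤ → ℤ} {Cl : ℕ → ∀ D : Win, OutB D → Prop}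
    (co : ∀ m D O, Cl m D O → ∃ (YP YQ : ℤ) (CL CR : ℤ → Bool), CoarseC D ((2 * m : ℕ) : ℤ) H A B YP YQ CL CR)
    (out : ∀ m D O, Cl m D O → Pool.Agent.H20.Sp.OutOK O (m : ℤ)) (ty : ∀ m D O, Cl m D O → OTyN O)
    {F : Filter ℕ} {m : ℕ → ℕ} {D : ℕ → Win} {O : ∀ j, OutB (D j)} (hm : Tendsto m F atTop)
    (hc : ∀ᶠ j in F, Cl (m j) (D j) (O j)) : S12W (fun j => 2 * m j) F O := by
  have hR : Tendsto (fun j => 2 * m j) F atTop :=
    tendsto_atTop_mono (fun j => by omega) hm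
  exact fun {pA pB sA sB tx ty'} ht => s12W_ofN hAP hR (hc.mono fun j h => co _ _ _ h)
    (by
      filter_upwards [hc, hm.eventually_ge_atTop 3] with j h h3
      obtain ⟨YP, YQ, CL, CR, hC⟩ := co _ _ _ h
      exact rootC_ok h3 hC.toCoarse (out _ _ _ h))
    (hc.mono fun j h => ty _ _ _ h) ht

end Pool.Agent.H52.W
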